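import Pool.Agent.H61.NVK.TargetsE2

/-!
# Row E_BSU of `nvk_modules`: sums over `b` with a periodic weight
-/

set_option autoImplicit false

open MeasureTheory Set Filter NumberField NumberField.InfinitePlace
open scoped Real nonZeroDivisors

namespace Pool.Agent.H36.NVE_BSU

open Pool.Agent.H65.CM4 Pool.Agent.H61.CM4 Pool.Agent.H61.NVK

variable {k : Type} [Field k] [NumberField k] [IsTotallyReal k]

omit [IsTotallyReal k] in
/-- representatives exist -/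
lemma exists_rpi (I J : Ideal (𝓞 k)) (hJ : J ≠ ⊥) (hle : J ≤ I) :
    ∃ R : Finset (𝓞 k), RpI I J R := by
  classical
  have hfin : Finite (𝓞 k ⧸ J) := Ideal.finiteQuotientOfFreeOfNeBot J hJ
  have hT : ((Ideal.Quotient.mk J) '' (I : Set (𝓞 k))).Finite := Set.toFinite _
  have hch : ∀ q : 𝓞 k ⧸ J, ∃ x : 𝓞 k, q ∈ (Ideal.Quotient.mk J) '' (I : Set (𝓞 k)) →
      x ∈ I ∧ Ideal.Quotient.mk J x = q := by
    intro q
    by_cases hq : q ∈ (Ideal.Quotient.mk J) '' (I : Set (𝓞 k))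
    · obtain ⟨x, hx, hxq⟩ := hq
      exact ⟨x, fun _ => ⟨hx, hxq⟩⟩
    · exact ⟨0, fun h => absurd h hq⟩
  choose x hx using hch
  refine ⟨hT.toFinset.image x, hle, ?_, ?_, ?_⟩
  · intro r hr
    obtain ⟨q, hq, rfl⟩ := Finset.mem_image.1 hr
    exact (hx q (hT.mem_toFinset.1 hq)).1
  · intro y hy
    have hq : Ideal.Quotient.mk J y ∈ (Ideal.Quotient.mk J) '' (I : Set (𝓞 k)) := ⟨y, hy, rfl⟩
    refine ⟨x (Ideal.Quotient.mk J y), Finset.mem_image_of_mem _ (hT.mem_toFinset.2 hq), ?_⟩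
    rw [← Ideal.Quotient.eq]
    exact (hx _ hq).2.symm
  · intro r hr r' hr' hrr
    obtain ⟨q, hq, rfl⟩ := Finset.mem_image.1 hr
    obtain ⟨q', hq', rfl⟩ := Finset.mem_image.1 hr'
    rw [← Ideal.Quotient.eq, (hx q (hT.mem_toFinset.1 hq)).2,
      (hx q' (hT.mem_toFinset.1 hq')).2] at hrr
    rw [hrr]

omit [IsTotallyReal k] in
/-- the number of representatives -/
lemma card_rpi (I J : Ideal (𝓞 k)) (hJ : J ≠ ⊥) (R : Finset (𝓞 k)) (hR : RpI I J R) :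
    (R.card : ℝ) ≤ nm J := by
  classical
  have hfin : Finite (𝓞 k ⧸ J) := Ideal.finiteQuotientOfFreeOfNeBot J hJ
  have hft : Fintype (𝓞 k ⧸ J) := Fintype.ofFinite _
  have h1 : R.card ≤ (Finset.univ : Finset (𝓞 k ⧸ J)).card := by
    apply Finset.card_le_card_of_injOn (Ideal.Quotient.mk J) (fun _ _ => Finset.mem_univ _)
    intro r hr r' hr' h
    exact hR.uniq r hr r' hr' (Ideal.Quotient.eq.1 h)
  have h2 : (Finset.univ : Finset (𝓞 k ⧸ J)).card = Ideal.absNorm J := by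
    rw [Finset.card_univ, ← Nat.card_eq_fintype_card, Ideal.absNorm_apply,
      Submodule.cardQuot_apply]
  unfold nm
  rw [h2] at h1
  exact_mod_cast h1

omit [NumberField k] [IsTotallyReal k] in
/-- sums of periodic functions -/
lemma sum_shift (I J : Ideal (𝓞 k)) (R : Finset (𝓞 k)) (hR : RpI I J R) (F : 𝓞 k → ℝ)
    (hF : ∀ b ∈ I, ∀ z ∈ J, F (b + z) = F b) (j : 𝓞 k) (hj : j ∈ I) :
    ∑ b ∈ R, F (b + j) = ∑ b ∈ R, F b := by
  have hex := hR.ex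
  choose! rep hrep using hex
  have h1 : ∀ x ∈ I, F x = F (rep x) := by
    intro x hx
    have h2 := hF (rep x) (hR.mem _ (hrep x hx).1) (x - rep x) (hrep x hx).2
    rw [add_sub_cancel] at h2
    exact h2
  have h3 : ∀ b ∈ R, F (b + j) = F (rep (b + j)) := fun b hb =>
    h1 _ (I.add_mem (hR.mem b hb) hj)
  rw [Finset.sum_congr rfl h3]
  have huniq : ∀ x ∈ I, ∀ r ∈ R, x - r ∈ J → rep x = r := by
    intro x hx r hr hxr
    apply hR.uniq _ (hrep x hx).1 r hr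
    have h4 := J.sub_mem hxr (hrep x hx).2
    have h5 : x - r - (x - rep x) = rep x - r := by ring
    rwa [h5] at h4
  refine Finset.sum_bij' (fun b _ => rep (b + j)) (fun b _ => rep (b - j)) ?_ ?_ ?_ ?_ ?_
  · intro b hb
    exact (hrep _ (I.add_mem (hR.mem b hb) hj)).1
  · intro b hb
    exact (hrep _ (I.sub_mem (hR.mem b hb) hj)).1
  · intro b hb
    have h4 := hrep _ (I.add_mem (hR.mem b hb) hj)
    apply huniq _ (I.sub_mem (hR.mem _ h4.1) hj) b hb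
    have h5 : rep (b + j) - j - b = -(b + j - rep (b + j)) := by ring
    rw [h5]
    exact J.neg_mem h4.2
  · intro b hb
    have h4 := hrep _ (I.sub_mem (hR.mem b hb) hj)
    apply huniq _ (I.add_mem (hR.mem _ h4.1) hj) b hb
    have h5 : rep (b - j) + j - b = -(b - j - rep (b - j)) := by ring
    rw [h5]
    exact J.neg_mem h4.2
  · intro b _
    rfl

lemma ev_add (b z : 𝓞 k) (v : Pl k) : ev (b + z) v = ev b v + ev z v := by
  unfold ev
  rw [← map_add]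
  rfl

theorem pf_BSU (hBAV : T_BAV) (hLIX : T_LIX) (hZPR : T_ZPR) : T_BSU := by
  classical
  intro k _ _ _ η hη
  obtain ⟨C, c, j, hC, hc, hmain⟩ := hBAV k η hη
  obtain ⟨N2, hN2⟩ : ∃ N2 : ℝ, N2 = nm (Ideal.span {(2 : 𝓞 k)}) := ⟨_, rfl⟩
  have hN20 : 0 ≤ N2 := by
    rw [hN2]
    exact Nat.cast_nonneg _
  refine ⟨C * (N2 + 1), c, j + 2, by positivity, hc, ?_⟩
  intro A f h R D Y M g hY hD hR hg1 hg2 hgM
  obtain ⟨J, hJ⟩ : ∃ J : Ideal (𝓞 k), J = Ideal.span {2} * ((A : Ideal (𝓞 k)) *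
    (f : Ideal (𝓞 k))) := ⟨_, rfl⟩
  rw [← hJ] at hR hg1
  have hA0 : (A : Ideal (𝓞 k)) ≠ ⊥ := nonZeroDivisors.ne_zero A.2
  have hf0 : (f : Ideal (𝓞 k)) ≠ ⊥ := nonZeroDivisors.ne_zero f.2
  have hh0 : (h : Ideal (𝓞 k)) ≠ ⊥ := nonZeroDivisors.ne_zero h.2
  have h20 : Ideal.span {(2 : 𝓞 k)} ≠ ⊥ := by
    rw [Ne, Ideal.span_singleton_eq_bot]
    exact two_ne_zero
  have hJ0 : J ≠ ⊥ := by
    rw [hJ]
    exact mul_ne_zero h20 (mul_ne_zero hA0 hf0)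
  obtain ⟨h1, hh1⟩ : ∃ h1 : Ideal (𝓞 k), h1 = J ⊔ (h : Ideal (𝓞 k)) * (f : Ideal (𝓞 k)) :=
    ⟨_, rfl⟩
  have hJh1 : J ≤ h1 := by rw [hh1]; exact le_sup_left
  have hfh1 : (h : Ideal (𝓞 k)) * (f : Ideal (𝓞 k)) ≤ h1 := by rw [hh1]; exact le_sup_right
  have hh1f : h1 ≤ (f : Ideal (𝓞 k)) := by
    rw [hh1]
    exact sup_le hR.le Ideal.mul_le_right
  have hh10 : h1 ≠ ⊥ := fun h0 => hJ0 (le_bot_iff.1 (h0 ▸ hJh1))
  obtain ⟨R1, hR1⟩ := exists_rpi h1 J hJ0 hJh1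
  -- the norm of `h1`
  have hnmul : ∀ I I' : Ideal (𝓞 k), nm (I * I') = nm I * nm I' := by
    intro I I'
    unfold nm
    rw [map_mul]
    push_cast
    rfl
  have hfpos : 0 < nm (f : Ideal (𝓞 k)) := by
    have := (hLIX k A f).2.2.2
    linarith
  have hApos : 0 < nm (A : Ideal (𝓞 k)) := by
    have := (hLIX k A f).2.2.1
    linarith
  have hhpos : 0 < nm (h : Ideal (𝓞 k)) := by
    have := (hLIX k h f).2.2.1
    linarith
  have hh1nm : nm h1 ≤ nm (f : Ideal (𝓞 k)) * nm (h : Ideal (𝓞 k)) := by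
    have h2 := Ideal.absNorm_dvd_absNorm_of_le hfh1
    have h3 : (h : Ideal (𝓞 k)) * (f : Ideal (𝓞 k)) ≠ ⊥ := mul_ne_zero hh0 hf0
    have h4 : 0 < Ideal.absNorm ((h : Ideal (𝓞 k)) * (f : Ideal (𝓞 k))) :=
      Nat.pos_of_ne_zero (fun h0 => h3 (Ideal.absNorm_eq_zero_iff.1 h0))
    have h5 := Nat.le_of_dvd h4 h2
    have h6 : nm h1 ≤ nm ((h : Ideal (𝓞 k)) * (f : Ideal (𝓞 k))) := by
      unfold nm
      exact_mod_cast h5
    rw [hnmul, mul_comm] at h6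
    exact h6
  have hh1pos : 0 < nm h1 := by
    unfold nm
    have : 0 < Ideal.absNorm h1 :=
      Nat.pos_of_ne_zero (fun h0 => hh10 (Ideal.absNorm_eq_zero_iff.1 h0))
    exact_mod_cast this
  -- the estimate of the averages
  obtain ⟨E1, hE1⟩ : ∃ E1 : ℝ, E1 = C * (nm (A : Ideal (𝓞 k)) + nm (f : Ideal (𝓞 k)) + Y) ^ j *
      Real.exp (-(c * (Y ^ ((dg k : ℝ) / 2) / nm h1) ^ (1 / (dg k : ℝ)))) := ⟨_, rfl⟩
  obtain ⟨X, hX⟩ : ∃ X : ℝ, X = Real.exp (-(c * (Y ^ ((dg k : ℝ) / 2) /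
      (nm (f : Ideal (𝓞 k)) * nm (h : Ideal (𝓞 k)))) ^ (1 / (dg k : ℝ)))) := ⟨_, rfl⟩
  have hX0 : 0 < X := by rw [hX]; exact Real.exp_pos _
  have hsum0 : 0 < nm (A : Ideal (𝓞 k)) + nm (f : Ideal (𝓞 k)) + Y := by linarith
  have hexp : Real.exp (-(c * (Y ^ ((dg k : ℝ) / 2) / nm h1) ^ (1 / (dg k : ℝ)))) ≤ X := by
    rw [hX]
    apply Real.exp_le_exp.2
    apply neg_le_neg
    apply mul_le_mul_of_nonneg_left _ hc.le
    apply Real.rpow_le_rpow (by positivity) _ (by positivity)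
    apply div_le_div_of_nonneg_left (by positivity) hh1pos hh1nm
  have hav : ∀ b : 𝓞 k, |(1 / (R1.card : ℝ)) * ∑ i ∈ R1, zf (A : Ideal (𝓞 k)) f
      (ev (b + i)) D - ct (A : Ideal (𝓞 k)) f D| ≤ E1 := by
    intro b
    have h2 := hmain A f ⟨h1, mem_nonZeroDivisors_of_ne_zero hh10⟩ R1 (ev b) D Y hY hD
      (by rw [hJ] at hR1; exact hR1)
    rw [← hE1] at h2
    have h3 : ∀ i : 𝓞 k, ev (b + i) = fun v => ev b v + ev i v := by
      intro i
      funext v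
      exact ev_add b i v
    simp only [h3]
    exact h2
  have hM0 : 0 ≤ M := (abs_nonneg _).trans (hgM 0 (Ideal.zero_mem _))
  have hD0 : ∀ v, 0 < D v := fun v => lt_of_lt_of_le (by positivity) (hD v).1
  -- the function
  obtain ⟨F, hF⟩ : ∃ F : 𝓞 k → ℝ, F = fun b => g b * (zf (A : Ideal (𝓞 k)) f (ev b) D -
      ct (A : Ideal (𝓞 k)) f D) := ⟨_, rfl⟩
  have hzper : ∀ b : 𝓞 k, ∀ z ∈ J, zf (A : Ideal (𝓞 k)) f (ev (b + z)) D =
      zf (A : Ideal (𝓞 k)) f (ev b) D := by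
    intro b z hz
    rw [hJ, Ideal.mem_span_singleton_mul] at hz
    obtain ⟨r, hr, rfl⟩ := hz
    have h2 := hZPR k A f (ev b) D r 1 hD0 hr
    have h3 : (fun v : Pl k => rv v (((1 : (𝓞 k)ˣ) : 𝓞 k) : k) * ev b v + 2 * rv v (r : k)) =
        ev (b + 2 * r) := by
      funext v
      rw [ev_add]
      have h4 : rv v (((1 : (𝓞 k)ˣ) : 𝓞 k) : k) = 1 := by
        rw [Units.val_one]
        simp
      have h5 : ev (2 * r) v = 2 * rv v (r : k) := by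
        unfold ev
        change rv v (algebraMap (𝓞 k) k (2 * r)) = 2 * rv v (algebraMap (𝓞 k) k r)
        rw [map_mul, map_mul, map_ofNat, map_ofNat]
      rw [h4, h5, one_mul]
    have h6 : (fun v : Pl k => rv v (((1 : (𝓞 k)ˣ) : 𝓞 k) : k) ^ 2 * D v) = D := by
      funext v
      rw [Units.val_one]
      simp
    rw [h3, h6] at h2
    exact h2
  have hFper : ∀ b ∈ (f : Ideal (𝓞 k)), ∀ z ∈ J, F (b + z) = F b := by
    intro b hb z hz
    rw [hF]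
    simp only
    rw [hg1 b hb z hz, hzper b z hz]
  have hgper : ∀ b ∈ (f : Ideal (𝓞 k)), ∀ i ∈ h1, g (b + i) = g b := by
    intro b hb i hi
    rw [hh1] at hi
    obtain ⟨z1, hz1, z2, hz2, rfl⟩ := Submodule.mem_sup.1 hi
    rw [← add_assoc, hg2 (b + z1) ((f : Ideal (𝓞 k)).add_mem hb (hR.le hz1)) z2 hz2,
      hg1 b hb z1 hz1]
  have hshift : ∀ i ∈ R1, ∑ b ∈ R, F (b + i) = ∑ b ∈ R, F b := fun i hi =>
    sum_shift _ J R hR F hFper i (hh1f (hR1.mem i hi))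
  have hR1ne : R1.Nonempty := by
    obtain ⟨r, hr, -⟩ := hR1.ex 0 (Ideal.zero_mem _)
    exact ⟨r, hr⟩
  have hR1c : (0 : ℝ) < R1.card := by exact_mod_cast Finset.card_pos.2 hR1ne
  have hsumF : ∑ b ∈ R, F b = ∑ b ∈ R, g b * ((1 / (R1.card : ℝ)) * ∑ i ∈ R1,
      zf (A : Ideal (𝓞 k)) f (ev (b + i)) D - ct (A : Ideal (𝓞 k)) f D) := by
    have h2 : ∑ i ∈ R1, ∑ b ∈ R, F (b + i) = (R1.card : ℝ) * ∑ b ∈ R, F b := by
      rw [Finset.sum_congr rfl hshift, Finset.sum_const, nsmul_eq_mul]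
    have h3 : ∑ b ∈ R, F b = (1 / (R1.card : ℝ)) * ∑ i ∈ R1, ∑ b ∈ R, F (b + i) := by
      rw [h2, ← mul_assoc, one_div, inv_mul_cancel₀ hR1c.ne', one_mul]
    rw [h3, Finset.sum_comm, Finset.mul_sum]
    refine Finset.sum_congr rfl fun b hb => ?_
    have h4 : ∀ i ∈ R1, F (b + i) = g b * zf (A : Ideal (𝓞 k)) f (ev (b + i)) D -
        g b * ct (A : Ideal (𝓞 k)) f D := by
      intro i hi
      rw [hF]
      simp only
      rw [hgper b (hR.mem b hb) i (hR1.mem i hi)]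
      ring
    have h5 : (1 / (R1.card : ℝ)) * ((R1.card : ℝ) * (g b * ct (A : Ideal (𝓞 k)) f D)) =
        g b * ct (A : Ideal (𝓞 k)) f D := by
      rw [← mul_assoc, one_div, inv_mul_cancel₀ hR1c.ne', one_mul]
    rw [Finset.sum_congr rfl h4, Finset.sum_sub_distrib, Finset.sum_const, ← Finset.mul_sum,
      nsmul_eq_mul, mul_sub, h5]
    ring
  have hlhs : ∑ b ∈ R, g b * zf (A : Ideal (𝓞 k)) f (ev b) D -
      ct (A : Ideal (𝓞 k)) f D * ∑ b ∈ R, g b = ∑ b ∈ R, F b := by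
    rw [Finset.mul_sum, ← Finset.sum_sub_distrib, hF]
    refine Finset.sum_congr rfl fun b _ => ?_
    ring
  rw [hlhs, hsumF]
  have hE10 : 0 ≤ E1 := by rw [hE1]; positivity
  have hbound : |∑ b ∈ R, g b * ((1 / (R1.card : ℝ)) * ∑ i ∈ R1,
      zf (A : Ideal (𝓞 k)) f (ev (b + i)) D - ct (A : Ideal (𝓞 k)) f D)| ≤
      R.card * (M * E1) := by
    refine (Finset.abs_sum_le_sum_abs _ _).trans ?_
    rw [← nsmul_eq_mul, ← Finset.sum_const]
    refine Finset.sum_le_sum fun b hb => ?_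
    rw [abs_mul]
    exact mul_le_mul (hgM b (hR.mem b hb)) (hav b) (abs_nonneg _) hM0
  refine hbound.trans ?_
  have hcard : (R.card : ℝ) ≤ N2 * (nm (A : Ideal (𝓞 k)) * nm (f : Ideal (𝓞 k))) := by
    have h2 := card_rpi _ J hJ0 R hR
    rw [hJ, hnmul, hnmul, ← hN2] at h2
    exact h2
  have hAf : nm (A : Ideal (𝓞 k)) * nm (f : Ideal (𝓞 k)) ≤
      (nm (A : Ideal (𝓞 k)) + nm (f : Ideal (𝓞 k)) + Y) ^ 2 := by
    rw [pow_two]
    apply mul_le_mul (by linarith) (by linarith) hfpos.le hsum0.le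
  have hE1' : E1 ≤ C * (nm (A : Ideal (𝓞 k)) + nm (f : Ideal (𝓞 k)) + Y) ^ j * X := by
    rw [hE1]
    exact mul_le_mul_of_nonneg_left hexp (by positivity)
  rw [← hX]
  calc (R.card : ℝ) * (M * E1) ≤ (N2 * (nm (A : Ideal (𝓞 k)) + nm (f : Ideal (𝓞 k)) + Y) ^ 2) *
        (M * (C * (nm (A : Ideal (𝓞 k)) + nm (f : Ideal (𝓞 k)) + Y) ^ j * X)) := by
        apply mul_le_mul
        · exact hcard.trans (mul_le_mul_of_nonneg_left hAf hN20)
        · exact mul_le_mul_of_nonneg_left hE1' hM0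
        · positivity
        · positivity
    _ = C * N2 * M * (nm (A : Ideal (𝓞 k)) + nm (f : Ideal (𝓞 k)) + Y) ^ (j + 2) * X := by
        ring
    _ ≤ C * (N2 + 1) * M * (nm (A : Ideal (𝓞 k)) + nm (f : Ideal (𝓞 k)) + Y) ^ (j + 2) * X := by
        gcongr
        linarith

end Pool.Agent.H36.NVE_BSU
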