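import Pool.Agent.H61.NVK.TargetsE1

/-!
# Row E_ZFE of `nvk_modules`: the two normalisations of the Epstein zeta function
-/

set_option autoImplicit false

open MeasureTheory Set Filter NumberField NumberField.InfinitePlace
open scoped Real nonZeroDivisors

namespace Pool.Agent.H36.NVE_ZFE

open Pool.Agent.H65.CM4 Pool.Agent.H61.CM4 Pool.Agent.H61.NVK

lemma qd_pos {k : Type} [Field k] [NumberField k] [IsTotallyReal k] (b D : Pl k → ℝ)
    (hD : ∀ v, 0 < D v) (u : V2 k) (hu : u ≠ 0) : 0 < qd b D u := by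
  unfold qd
  refine Finset.prod_pos fun v _ => ?_
  by_cases h2 : u.2 = 0
  · have h1 : u.1 ≠ 0 := by
      intro h1
      exact hu (Prod.ext h1 h2)
    have h3 : rv v (u.2 : k) = 0 := by
      rw [h2]
      simp
    have h4 : rv v (u.1 : k) ≠ 0 := by
      rw [map_ne_zero]
      intro h
      exact h1 (RingOfIntegers.coe_injective (h.trans (map_zero _).symm))
    rw [h3]
    have h5 : 0 < rv v (u.1 : k) ^ 2 := by positivity
    simpa using h5
  · have h4 : rv v (u.2 : k) ≠ 0 := by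
      rw [map_ne_zero]
      intro h
      exact h2 (RingOfIntegers.coe_injective (h.trans (map_zero _).symm))
    have h5 : 0 < D v * rv v (u.2 : k) ^ 2 / 4 := by
      have := hD v
      positivity
    have h6 : 0 ≤ (rv v (u.1 : k) + rv v (u.2 : k) * b v / 2) ^ 2 := sq_nonneg _
    linarith

lemma qp_eq {k : Type} [Field k] [NumberField k] [IsTotallyReal k] (b D : Pl k → ℝ)
    (hD : ∀ v, 0 < D v) (u : V2 k) :
    qp (fun v => b v / 2) (fun v => Real.sqrt (D v) / 2) u = qd b D u / sD D := by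
  unfold qp qd sD
  rw [Real.sqrt_prod _ fun v _ => (hD v).le, ← Finset.prod_div_distrib]
  refine Finset.prod_congr rfl fun v _ => ?_
  unfold qr
  have h1 : Real.sqrt (D v) ^ 2 = D v := Real.sq_sqrt (hD v).le
  have h2 : 2 * (Real.sqrt (D v) / 2) = Real.sqrt (D v) := by ring
  rw [h2]
  congr 1
  have h3 : (rv v (u.2 : k) * (Real.sqrt (D v) / 2)) ^ 2 =
      Real.sqrt (D v) ^ 2 * rv v (u.2 : k) ^ 2 / 4 := by ring
  rw [h3, h1]
  ring

theorem pf_ZFE (hLIX : T_LIX) : T_ZFE := by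
  classical
  intro k _ _ _ a A f b D hD
  have hsD : 0 < sD D := Real.sqrt_pos.2 (Finset.prod_pos fun v _ => hD v)
  have hA : 0 < nm (A : Ideal (𝓞 k)) := by
    have := (hLIX k a A).2.2.2
    linarith
  have hf : 0 < nm (f : Ideal (𝓞 k)) := by
    have := (hLIX k a f).2.2.2
    linarith
  have hpos : ∀ a : (Ideal (𝓞 k))⁰, 0 < nm (a : Ideal (𝓞 k)) := by
    intro a
    have := (hLIX k a f).2.2.1
    linarith
  have hnm : nm ((A : Ideal (𝓞 k)) * (f : Ideal (𝓞 k))) =
      nm (A : Ideal (𝓞 k)) * nm (f : Ideal (𝓞 k)) := by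
    unfold nm
    rw [map_mul]
    push_cast
    rfl
  have hix : ∀ a : (Ideal (𝓞 k))⁰, (ix (Lb (a : Ideal (𝓞 k))
      ((A : Ideal (𝓞 k)) * (f : Ideal (𝓞 k)))) : ℝ) =
      nm (a : Ideal (𝓞 k)) ^ 2 * (nm (A : Ideal (𝓞 k)) * nm (f : Ideal (𝓞 k))) := by
    intro a
    have h1 := (hLIX k a (A * f)).1
    rw [Submonoid.coe_mul, hnm] at h1
    exact h1
  have hmain : ∀ (a : (Ideal (𝓞 k))⁰) (u : V2 k),
      nf (a : Ideal (𝓞 k)) A f b D u * nm (f : Ideal (𝓞 k)) / sD D =
      qp (fun v => b v / 2) (fun v => Real.sqrt (D v) / 2) u /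
        ix (Lb (a : Ideal (𝓞 k)) ((A : Ideal (𝓞 k)) * (f : Ideal (𝓞 k)))) := by
    intro a u
    rw [hix, qp_eq b D hD]
    unfold nf
    have h1 := (hpos a).ne'
    have h2 := hA.ne'
    have h3 := hf.ne'
    have h4 := hsD.ne'
    field_simp
  refine ⟨hsD, hmain a, ?_, ?_⟩
  · intro u hu
    unfold nf
    have h1 := qd_pos b D hD u hu
    have h2 := hpos a
    positivity
  · unfold zf ze
    rw [Finset.mul_sum]
    refine Finset.sum_congr rfl fun c _ => ?_
    rw [← tsum_mul_left]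
    refine tsum_congr fun u => ?_
    by_cases hu : u ∈ Lb (ci c) ((A : Ideal (𝓞 k)) * (f : Ideal (𝓞 k))) ∧ u ∈ Fo k
    · rw [if_pos hu, if_pos hu]
      have h1 : nf (ci c) A f b D u * nm (f : Ideal (𝓞 k)) / sD D =
        qp (fun v => b v / 2) (fun v => Real.sqrt (D v) / 2) u /
          ix (Lb (ci c) ((A : Ideal (𝓞 k)) * (f : Ideal (𝓞 k)))) := hmain (cr c) u
      rw [← h1]
      have h2 : nf (ci c) A f b D u = sD D / nm (f : Ideal (𝓞 k)) *
          (nf (ci c) A f b D u * nm (f : Ideal (𝓞 k)) / sD D) := by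
        have h3 := hf.ne'
        have h4 := hsD.ne'
        field_simp
      have h5 : Real.sqrt (nf (ci c) A f b D u) = Real.sqrt (sD D) /
          Real.sqrt (nm (f : Ideal (𝓞 k))) *
          Real.sqrt (nf (ci c) A f b D u * nm (f : Ideal (𝓞 k)) / sD D) := by
        rw [← Real.sqrt_div hsD.le, ← Real.sqrt_mul (by positivity), ← h2]
      rw [h5]
      simp only [div_eq_mul_inv, mul_inv, inv_inv]
      ring
    · rw [if_neg hu, if_neg hu, mul_zero]

end Pool.Agent.H36.NVE_ZFE
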